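import Pool.Agent.Lib.helper6.Ach

set_option autoImplicit false

namespace Pool.Agent.Results.MP_ee56ef_an.Counterexample

open Set Pool.Agent.H6Ach

noncomputable section

/-- the multigeometric sequence `(k_1, ..., k_m; 1/n)`, indexed from 0:
`k_1/n, ..., k_m/n, k_1/n^2, ..., k_m/n^2, ...` -/
def mg (n : ℕ) {m : ℕ} (hm : 0 < m) (k : Fin m → ℕ) (j : ℕ) : ℝ :=
  (k ⟨j % m, Nat.mod_lt j hm⟩ : ℝ) / (n : ℝ) ^ (j / m + 1)

/-- the achievement set of a sequence -/
def ach (x : ℕ → ℝ) : Set ℝ := {s | ∃ A : Set ℕ, s = ∑' j, A.indicator x j}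

/-- the set of subsums of `k_1, ..., k_m` -/
def subsums {m : ℕ} (k : Fin m → ℕ) : Finset ℕ :=
  Finset.univ.image (fun S : Finset (Fin m) => ∑ i ∈ S, k i)

def kk : Fin 4 → ℕ := ![1, 8, 16, 16]

def x : ℕ → ℝ := mg 12 (by norm_num) kk

lemma x_nonneg (j : ℕ) : 0 ≤ x j := by unfold x mg; positivity

lemma x_rec (j : ℕ) : x (j + 4) = x j / 12 := by
  unfold x mg
  simp only [Nat.add_mod_right]
  rw [Nat.add_div_right _ (by norm_num), pow_succ]
  push_cast
  field_simp

lemma x_summ : Summable x :=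
  (block_sum (m := 4) (q := 12) (by norm_num) (by norm_num) x_nonneg x_rec).1

lemma up {w : ℝ} (hw : w ∈ E x) (e d : ℕ) (he : e ≤ 1) (hd : d ≤ 5) :
    (e + 8 * d + w) / 12 ∈ E x := by
  have h2 : sh 4 x = fun n => x n / 12 := funext x_rec
  have e0 : x 0 = 1 / 12 := by norm_num [x, mg, kk]
  have e1 : sh 1 x 0 = 8 / 12 := by norm_num [x, mg, kk, sh]
  have e2 : sh 2 x 0 = 16 / 12 := by
    simp only [x, mg, kk, sh]; norm_num
  have e3 : sh 3 x 0 = 16 / 12 := by
    simp only [x, mg, kk, sh]; norm_num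
  have s1 := E_succ (sh_summ x_summ 1)
  have s2 := E_succ (sh_summ x_summ 2)
  have s3 := E_succ (sh_summ x_summ 3)
  rw [sh_sh] at s1 s2 s3
  norm_num at s1 s2 s3
  have t3 : ∀ s, 12 * s ∈ E x → s ∈ E (sh 3 x) ∧ s + 16 / 12 ∈ E (sh 3 x) := by
    intro s hs
    simp only [s3, h2, E_div 12 (by norm_num), e3, add_sub_cancel_right]
    tauto
  have t2 : ∀ s, s ∈ E (sh 3 x) → s ∈ E (sh 2 x) ∧ s + 16 / 12 ∈ E (sh 2 x) := by
    intro s hs
    simp only [s2, e2, add_sub_cancel_right]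
    tauto
  have t1 : ∀ s, s ∈ E (sh 2 x) → s ∈ E (sh 1 x) ∧ s + 8 / 12 ∈ E (sh 1 x) := by
    intro s hs
    simp only [s1, e1, add_sub_cancel_right]
    tauto
  have t0 : ∀ s, s ∈ E (sh 1 x) → s ∈ E x ∧ s + 1 / 12 ∈ E x := by
    intro s hs
    simp only [E_succ x_summ, e0, add_sub_cancel_right]
    tauto
  have a := t3 (w / 12) (by convert hw using 1; ring)
  have b0 := t1 _ (t2 _ a.1).1
  have b1 := t1 _ (t2 _ a.2).1
  have b2 := t1 _ (t2 _ a.2).2
  have key : (8 * d + w) / 12 ∈ E (sh 1 x) := by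
    interval_cases d
    · convert b0.1 using 1; push_cast; ring
    · convert b0.2 using 1; push_cast; ring
    · convert b1.1 using 1; push_cast; ring
    · convert b1.2 using 1; push_cast; ring
    · convert b2.1 using 1; push_cast; ring
    · convert b2.2 using 1; push_cast; ring
  interval_cases e
  · convert (t0 _ key).1 using 1; push_cast; ring
  · convert (t0 _ key).2 using 1; push_cast; ring

def T : Set ℝ := {z | ∀ d : ℕ, d ≤ 5 → (z + 2 * d) / 3 ∈ E x}

lemma T_int : Icc (2 / 11 : ℝ) 1 ⊆ T := by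
  have hcl : IsClosed T := by
    have : T = ⋂ d : ℕ, ⋂ _ : d ≤ 5, (fun z : ℝ => (z + 2 * d) / 3) ⁻¹' E x := by
      ext z; simp [T]
    rw [this]
    exact isClosed_iInter fun d => isClosed_iInter fun _ =>
      (E_compact x_nonneg x_summ).isClosed.preimage (by fun_prop)
  have := intv hcl (fun d hd => by
      convert up (zero_mem x) 0 d (by norm_num) hd using 1; push_cast; ring) 12 (by norm_num)
    (by
      intro d h1 h2 w hw d' hd'
      obtain ⟨e, f, he, hf, rfl⟩ : ∃ e f : ℕ, e ≤ 1 ∧ f ≤ 5 ∧ d = 3 * e + 2 * f :=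
        ⟨d % 2, (d - 3 * (d % 2)) / 2, by omega, by omega, by omega⟩
      convert up (hw f hf) e d' he hd' using 1; push_cast; ring)
  norm_num at this ⊢
  exact this

lemma E_int : Icc (2 / 33 : ℝ) (1 / 3) ⊆ E x := by
  intro s hs
  have := T_int (a := 3 * s) ⟨by linarith [hs.1], by linarith [hs.2]⟩ 0 (by norm_num)
  convert this using 1; push_cast; ring

end

theorem result : ∃ (n m : ℕ) (hm : 0 < m) (k : Fin m → ℕ), 2 ≤ n ∧
    (∀ i, 0 < k i ∧ ¬ n ∣ k i) ∧ Finset.univ.gcd k = 1 ∧ (subsums k).card = n ∧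
    0 < MeasureTheory.volume (ach (mg n hm k)) ∧
    ∃ a ∈ subsums k, ∃ b ∈ subsums k, a ≠ b ∧ a ≡ b [MOD n] := by
  refine ⟨12, 4, by norm_num, kk, by norm_num, by decide, by decide, by decide, ?_,
    0, by decide, 24, by decide, by norm_num, by decide⟩
  refine lt_of_lt_of_le ?_ (MeasureTheory.measure_mono E_int)
  rw [Real.volume_Icc]
  norm_num

end Pool.Agent.Results.MP_ee56ef_an.Counterexample
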